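import Mathlib

/-!
# MP_b09cb0_an, Q1: global analytic first integrals of even Liénard systems

For every even polynomial of degree four the system `x' = y - E(x)`, `y' = -x` has a global
analytic first integral, built from two solutions of the Airy type equation `v'' = 4 a t v`.
-/

open Set Filter Polynomial

namespace Pool.Agent.Results.MP_b09cb0_an.QuarticIntegral

/-- `H` is a non-constant real-analytic function on the whole plane with
`(y - E(x)) ∂H/∂x - x ∂H/∂y = 0` everywhere. -/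
def IsGlobalAnalyticFirstIntegral (E : ℝ[X]) (H : ℝ × ℝ → ℝ) : Prop :=
  AnalyticOnNhd ℝ H univ ∧ (¬ ∃ k, ∀ p, H p = k) ∧
    ∀ x y : ℝ, (y - E.eval x) * deriv (fun s => H (s, y)) x - x * deriv (fun s => H (x, s)) y = 0

/-- The statement of Q1: no even polynomial of degree at least four admits a global analytic first
integral. -/
def Q1 : Prop :=
  ∀ E : ℝ[X], (∀ x, E.eval (-x) = E.eval x) → 4 ≤ E.natDegree →
    ¬ ∃ H : ℝ × ℝ → ℝ, IsGlobalAnalyticFirstIntegral E H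

/-! ### Entire power series -/

/-- coefficient sequences of infinite radius of convergence -/
def Ent (c : ℕ → ℝ) : Prop := ∀ ρ : ℝ, 0 < ρ → ∃ C, ∀ n, |c n| * ρ ^ n ≤ C

/-- the derived sequence -/
def D (c : ℕ → ℝ) : ℕ → ℝ := fun n => (n + 1) * c (n + 1)

/-- the sum of the series -/
noncomputable def F (c : ℕ → ℝ) (y : ℝ) : ℝ := ∑' n, c n * y ^ n

lemma Ent.D {c : ℕ → ℝ} (hc : Ent c) : Ent (D c) := by
  intro ρ hρ
  obtain ⟨C, hC⟩ := hc (2 * ρ) (by linarith)
  refine ⟨C / ρ, fun n => ?_⟩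
  have h1 := hC (n + 1)
  have h2 : ((n : ℝ) + 1) ≤ 2 ^ (n + 1) := by
    have : (n + 1 : ℕ) < 2 ^ (n + 1) := Nat.lt_two_pow_self
    exact_mod_cast this.le
  unfold QuarticIntegral.D
  rw [le_div_iff₀ hρ, abs_mul, abs_of_pos (by positivity : (0 : ℝ) < (n : ℝ) + 1)]
  calc ((n : ℝ) + 1) * |c (n + 1)| * ρ ^ n * ρ = ((n : ℝ) + 1) * (|c (n + 1)| * ρ ^ (n + 1)) := by
        ring
    _ ≤ 2 ^ (n + 1) * (|c (n + 1)| * ρ ^ (n + 1)) :=
        mul_le_mul_of_nonneg_right h2 (by positivity)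
    _ = |c (n + 1)| * (2 * ρ) ^ (n + 1) := by rw [mul_pow]; ring
    _ ≤ C := h1

lemma Ent.summable_abs {c : ℕ → ℝ} (hc : Ent c) {R : ℝ} (hR : 0 ≤ R) :
    Summable fun n => |c n| * R ^ n := by
  obtain ⟨C, hC⟩ := hc (2 * (R + 1)) (by linarith)
  refine Summable.of_nonneg_of_le (fun n => by positivity) (fun n => ?_)
    ((summable_geometric_of_lt_one (r := (1 / 2 : ℝ)) (by norm_num) (by norm_num)).mul_left C)
  have h1 := hC n
  have h2 : R ^ n ≤ (R + 1) ^ n := pow_le_pow_left₀ hR (by linarith) n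
  calc |c n| * R ^ n ≤ |c n| * (R + 1) ^ n := mul_le_mul_of_nonneg_left h2 (abs_nonneg _)
    _ = (|c n| * (2 * (R + 1)) ^ n) * (1 / 2) ^ n := by
        rw [mul_assoc, ← mul_pow]
        congr 2
        ring
    _ ≤ C * (1 / 2) ^ n := mul_le_mul_of_nonneg_right h1 (by positivity)

lemma Ent.summable {c : ℕ → ℝ} (hc : Ent c) (y : ℝ) : Summable fun n => c n * y ^ n := by
  refine Summable.of_norm ?_
  refine (hc.summable_abs (abs_nonneg y)).congr fun n => ?_
  rw [Real.norm_eq_abs, abs_mul, abs_pow]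

lemma Ent.hasDerivAt {c : ℕ → ℝ} (hc : Ent c) (y : ℝ) : HasDerivAt (F c) (F (QuarticIntegral.D c) y) y := by
  set R := |y| + 1 with hR
  have hR0 : 0 < R := by positivity
  have hu : Summable fun n : ℕ => |c n| * (n * R ^ (n - 1)) := by
    rw [← summable_nat_add_iff 1]
    refine (hc.D.summable_abs hR0.le).congr fun n => ?_
    unfold QuarticIntegral.D
    rw [abs_mul, abs_of_pos (by positivity : (0 : ℝ) < (n : ℝ) + 1)]
    simp only [Nat.cast_add, Nat.cast_one, add_tsub_cancel_right]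
    ring
  have h := hasDerivAt_tsum_of_isPreconnected (𝕜 := ℝ) (g := fun n y => c n * y ^ n)
    (g' := fun n y => c n * (n * y ^ (n - 1))) (t := Metric.ball (0 : ℝ) R) (y₀ := 0) (y := y) hu
    Metric.isOpen_ball (convex_ball (0 : ℝ) R).isPreconnected
    (fun n y _ => (hasDerivAt_pow n y).const_mul (c n))
    (by
      intro n z hz
      rw [mem_ball_zero_iff, Real.norm_eq_abs] at hz
      rw [Real.norm_eq_abs, abs_mul, abs_mul, abs_pow, Nat.abs_cast]
      refine mul_le_mul_of_nonneg_left (mul_le_mul_of_nonneg_left ?_ (Nat.cast_nonneg _))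
        (abs_nonneg _)
      exact pow_le_pow_left₀ (abs_nonneg _) hz.le _)
    (Metric.mem_ball_self hR0) (hc.summable 0)
    (by rw [mem_ball_zero_iff, Real.norm_eq_abs, hR]; linarith)
  have h2 : ∑' n : ℕ, c n * ((n : ℝ) * y ^ (n - 1)) = F (QuarticIntegral.D c) y := by
    have hs : Summable fun n : ℕ => c n * ((n : ℝ) * y ^ (n - 1)) := by
      refine Summable.of_norm_bounded hu fun n => ?_
      rw [Real.norm_eq_abs, abs_mul, abs_mul, abs_pow, Nat.abs_cast]
      refine mul_le_mul_of_nonneg_left (mul_le_mul_of_nonneg_left ?_ (Nat.cast_nonneg _))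
        (abs_nonneg _)
      exact pow_le_pow_left₀ (abs_nonneg _) (by rw [hR]; linarith) _
    rw [hs.tsum_eq_zero_add]
    unfold F QuarticIntegral.D
    simp only [Nat.cast_zero, zero_mul, mul_zero, zero_add]
    refine tsum_congr fun n => ?_
    simp only [Nat.cast_add, Nat.cast_one, add_tsub_cancel_right]
    ring
  rw [h2] at h
  exact h

lemma Ent.analyticAt {c : ℕ → ℝ} (hc : Ent c) (y : ℝ) : AnalyticAt ℝ (F c) y := by
  set p := FormalMultilinearSeries.ofScalars ℝ c with hp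
  have hrad : p.radius = ⊤ := by
    refine ENNReal.eq_top_of_forall_nnreal_le fun r => ?_
    obtain ⟨C, hC⟩ := hc ((r : ℝ) + 1) (by positivity)
    refine FormalMultilinearSeries.le_radius_of_bound _ C fun n => ?_
    rw [hp, FormalMultilinearSeries.ofScalars_norm, Real.norm_eq_abs]
    refine le_trans ?_ (hC n)
    exact mul_le_mul_of_nonneg_left (pow_le_pow_left₀ r.2 (le_add_of_nonneg_right zero_le_one) n)
      (abs_nonneg _)
  have h1 := p.hasFPowerSeriesOnBall (by rw [hrad]; simp)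
  have h2 : p.sum = F c := by
    funext z
    unfold FormalMultilinearSeries.sum F
    refine tsum_congr fun n => ?_
    rw [hp, FormalMultilinearSeries.ofScalars_apply_eq]
    simp
  rw [h2] at h1
  refine h1.analyticAt_of_mem ?_
  rw [hrad]
  simp

/-! ### The Airy type equation -/

/-- coefficients of the solution of `v'' = 4 a t v` with `v 0 = c₀`, `v' 0 = c₁` -/
noncomputable def co (a c₀ c₁ : ℝ) : ℕ → ℝ
  | 0 => c₀
  | 1 => c₁
  | 2 => 0
  | (n + 3) => 4 * a * co a c₀ c₁ n / ((n + 3) * (n + 2))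

lemma ent_co (a c₀ c₁ : ℝ) : Ent (co a c₀ c₁) := by
  intro ρ hρ
  obtain ⟨N, hN⟩ := exists_nat_ge (4 * |a| * ρ ^ 3)
  set c := co a c₀ c₁ with hc
  refine ⟨∑ i ∈ Finset.range (N + 3), |c i| * ρ ^ i, fun n => ?_⟩
  induction n using Nat.strong_induction_on with
  | _ n ih =>
    by_cases hn : n < N + 3
    · exact Finset.single_le_sum (f := fun i => |c i| * ρ ^ i) (fun i _ => by positivity)
        (Finset.mem_range.2 hn)
    · obtain ⟨k, rfl⟩ : ∃ k, n = k + 3 := ⟨n - 3, by omega⟩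
      have hk : N ≤ k := by omega
      have h1 := ih k (by omega)
      have h2 : c (k + 3) = 4 * a * c k / ((k + 3) * (k + 2)) := by
        rw [hc, co]
      have hkr : (N : ℝ) ≤ k := by exact_mod_cast hk
      have hk0 : (0 : ℝ) ≤ k := Nat.cast_nonneg _
      have h3 : 4 * |a| * ρ ^ 3 / ((k + 3) * (k + 2)) ≤ 1 := by
        rw [div_le_one (by positivity)]
        nlinarith
      have h4 : |c (k + 3)| * ρ ^ (k + 3)
          = (4 * |a| * ρ ^ 3 / ((k + 3) * (k + 2))) * (|c k| * ρ ^ k) := by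
        rw [h2, abs_div, abs_mul, abs_mul, abs_of_pos (by norm_num : (0 : ℝ) < 4),
          abs_of_pos (by positivity : (0 : ℝ) < ((k : ℝ) + 3) * (k + 2))]
        ring
      rw [h4]
      calc _ ≤ 1 * (|c k| * ρ ^ k) := mul_le_mul_of_nonneg_right h3 (by positivity)
        _ ≤ _ := by rw [one_mul]; exact h1

lemma airy (a c₀ c₁ y : ℝ) : F (D (D (co a c₀ c₁))) y = 4 * a * y * F (co a c₀ c₁) y := by
  have h1 := (ent_co a c₀ c₁).D.D.summable y
  unfold F at *
  rw [h1.tsum_eq_zero_add, ← tsum_mul_left]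
  have h2 : D (D (co a c₀ c₁)) 0 = 0 := by simp [D, co]
  rw [h2, zero_mul, zero_add]
  refine tsum_congr fun n => ?_
  have h3 : D (D (co a c₀ c₁)) (n + 1) = 4 * a * co a c₀ c₁ n := by
    unfold D
    rw [show n + 1 + 1 + 1 = n + 3 by ring, co]
    push_cast
    field_simp
    ring
  rw [h3]
  ring

lemma F_zero (c : ℕ → ℝ) : F c 0 = c 0 := by
  unfold F
  rw [tsum_eq_single 0]
  · simp
  · intro n hn
    simp [hn]

/-- the Wronskian is constant -/
lemma wronskian (a c₀ c₁ d₀ d₁ y : ℝ) :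
    F (D (co a c₀ c₁)) y * F (co a d₀ d₁) y - F (co a c₀ c₁) y * F (D (co a d₀ d₁)) y
      = c₁ * d₀ - c₀ * d₁ := by
  set W : ℝ → ℝ := fun y => F (D (co a c₀ c₁)) y * F (co a d₀ d₁) y
    - F (co a c₀ c₁) y * F (D (co a d₀ d₁)) y with hW
  have hder : ∀ z, HasDerivAt W 0 z := by
    intro z
    have h1 := (ent_co a c₀ c₁).D.hasDerivAt z
    have h2 := (ent_co a d₀ d₁).hasDerivAt z
    have h3 := (ent_co a c₀ c₁).hasDerivAt z
    have h4 := (ent_co a d₀ d₁).D.hasDerivAt z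
    have h5 : HasDerivAt W ((F (D (D (co a c₀ c₁))) z * F (co a d₀ d₁) z
        + F (D (co a c₀ c₁)) z * F (D (co a d₀ d₁)) z)
        - (F (D (co a c₀ c₁)) z * F (D (co a d₀ d₁)) z
        + F (co a c₀ c₁) z * F (D (D (co a d₀ d₁))) z)) z := (h1.mul h2).sub (h3.mul h4)
    rw [airy, airy] at h5
    have h6 : ((4 * a * z * F (co a c₀ c₁) z * F (co a d₀ d₁) z
        + F (D (co a c₀ c₁)) z * F (D (co a d₀ d₁)) z)
        - (F (D (co a c₀ c₁)) z * F (D (co a d₀ d₁)) z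
        + F (co a c₀ c₁) z * (4 * a * z * F (co a d₀ d₁) z))) = 0 := by ring
    rw [h6] at h5
    exact h5
  have hconst : ∀ z, W z = W 0 := fun z =>
    is_const_of_deriv_eq_zero (fun z => (hder z).differentiableAt) (fun z => (hder z).deriv) z 0
  have h0 : W 0 = c₁ * d₀ - c₀ * d₁ := by
    simp only [hW, F_zero]
    simp [D, co]
  rw [← h0, ← hconst y]

/-- the Darboux function -/
noncomputable def Pf (a b y₀ c₀ c₁ : ℝ) (p : ℝ × ℝ) : ℝ :=
  F (D (co a c₀ c₁)) (p.2 - y₀) + (b + 2 * a * p.1 ^ 2) * F (co a c₀ c₁) (p.2 - y₀)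

lemma Pf_analytic (a b y₀ c₀ c₁ : ℝ) : AnalyticOnNhd ℝ (Pf a b y₀ c₀ c₁) univ := by
  intro p _
  unfold Pf
  have hs : AnalyticAt ℝ (fun q : ℝ × ℝ => q.2 - y₀) p := analyticAt_snd.sub analyticAt_const
  have h1 : AnalyticAt ℝ (fun q : ℝ × ℝ => F (D (co a c₀ c₁)) (q.2 - y₀)) p :=
    AnalyticAt.comp (g := F (D (co a c₀ c₁))) (f := fun q : ℝ × ℝ => q.2 - y₀) (x := p)
      ((ent_co a c₀ c₁).D.analyticAt (p.2 - y₀)) hs
  have h2 : AnalyticAt ℝ (fun q : ℝ × ℝ => F (co a c₀ c₁) (q.2 - y₀)) p :=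
    AnalyticAt.comp (g := F (co a c₀ c₁)) (f := fun q : ℝ × ℝ => q.2 - y₀) (x := p)
      ((ent_co a c₀ c₁).analyticAt (p.2 - y₀)) hs
  have h3 : AnalyticAt ℝ (fun q : ℝ × ℝ => b + 2 * a * q.1 ^ 2) p :=
    analyticAt_const.add (analyticAt_const.mul (analyticAt_fst.pow 2))
  exact h1.add (h3.mul h2)

lemma Pf_dx (a b y₀ c₀ c₁ x y : ℝ) :
    HasDerivAt (fun s => Pf a b y₀ c₀ c₁ (s, y)) (4 * a * x * F (co a c₀ c₁) (y - y₀)) x := by
  have h1 : HasDerivAt (fun s : ℝ => b + 2 * a * s ^ 2) (4 * a * x) x := by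
    have h2 : HasDerivAt (fun s : ℝ => b + 2 * a * s ^ 2) (2 * a * (((2 : ℕ) : ℝ) * x ^ (2 - 1))) x :=
      ((hasDerivAt_pow 2 x).const_mul (2 * a)).const_add b
    have h3 : 2 * a * (((2 : ℕ) : ℝ) * x ^ (2 - 1)) = 4 * a * x := by
      norm_num
      ring
    rwa [h3] at h2
  change HasDerivAt (fun s => F (D (co a c₀ c₁)) (y - y₀)
    + (b + 2 * a * s ^ 2) * F (co a c₀ c₁) (y - y₀)) _ x
  exact (h1.mul_const _).const_add _

lemma Pf_dy (a b y₀ c₀ c₁ x y : ℝ) :
    HasDerivAt (fun s => Pf a b y₀ c₀ c₁ (x, s))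
      (4 * a * (y - y₀) * F (co a c₀ c₁) (y - y₀)
        + (b + 2 * a * x ^ 2) * F (D (co a c₀ c₁)) (y - y₀)) y := by
  have h1 : HasDerivAt (fun s => F (D (co a c₀ c₁)) (s - y₀)) (F (D (D (co a c₀ c₁))) (y - y₀)) y :=
    HasDerivAt.comp_sub_const y y₀ ((ent_co a c₀ c₁).D.hasDerivAt (y - y₀))
  have h2 : HasDerivAt (fun s => F (co a c₀ c₁) (s - y₀)) (F (D (co a c₀ c₁)) (y - y₀)) y :=
    HasDerivAt.comp_sub_const y y₀ ((ent_co a c₀ c₁).hasDerivAt (y - y₀))
  rw [airy] at h1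
  change HasDerivAt (fun s => F (D (co a c₀ c₁)) (s - y₀)
    + (b + 2 * a * x ^ 2) * F (co a c₀ c₁) (s - y₀)) _ y
  exact h1.add (h2.const_mul _)

/-- Every quartic `a x^4 + b x^2 + c` with `a ≠ 0` admits a global analytic first integral. -/
theorem exists_of_quartic {E : ℝ[X]} {a b c : ℝ} (ha : a ≠ 0)
    (hE : ∀ x, E.eval x = a * x ^ 4 + b * x ^ 2 + c) :
    ∃ H : ℝ × ℝ → ℝ, IsGlobalAnalyticFirstIntegral E H := by
  set y₀ : ℝ := c - b ^ 2 / (4 * a) with hy₀
  set P := Pf a b y₀ 1 0 with hP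
  set Q := Pf a b y₀ 0 1 with hQ
  have hne : ∀ p, P p ^ 2 + Q p ^ 2 ≠ 0 := by
    intro p h0
    have hP0 : P p = 0 := by nlinarith [sq_nonneg (P p), sq_nonneg (Q p)]
    have hQ0 : Q p = 0 := by nlinarith [sq_nonneg (P p), sq_nonneg (Q p)]
    have hw := wronskian a 1 0 0 1 (p.2 - y₀)
    rw [hP, Pf] at hP0
    rw [hQ, Pf] at hQ0
    have h1 : F (D (co a 1 0)) (p.2 - y₀) = -((b + 2 * a * p.1 ^ 2) * F (co a 1 0) (p.2 - y₀)) := by
      linarith
    have h2 : F (D (co a 0 1)) (p.2 - y₀) = -((b + 2 * a * p.1 ^ 2) * F (co a 0 1) (p.2 - y₀)) := by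
      linarith
    rw [h1, h2] at hw
    ring_nf at hw
    norm_num at hw
  refine ⟨fun p => P p ^ 2 / (P p ^ 2 + Q p ^ 2), ?_, ?_, ?_⟩
  · intro p hp
    have h1 := Pf_analytic a b y₀ 1 0 p hp
    have h2 := Pf_analytic a b y₀ 0 1 p hp
    exact (h1.pow 2).div ((h1.pow 2).add (h2.pow 2)) (hne p)
  · rintro ⟨k, hk⟩
    -- at `y = y₀`: `P = b + 2 a x²`, `Q = 1`
    have hPy : ∀ x, P (x, y₀) = b + 2 * a * x ^ 2 := by
      intro x
      simp only [hP, Pf, sub_self, F_zero]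
      simp [D, co]
    have hQy : ∀ x, Q (x, y₀) = 1 := by
      intro x
      simp only [hQ, Pf, sub_self, F_zero]
      simp [D, co]
    have hval : ∀ x, (b + 2 * a * x ^ 2) ^ 2 / ((b + 2 * a * x ^ 2) ^ 2 + 1 ^ 2) = k := by
      intro x
      have := hk (x, y₀)
      simp only [hPy, hQy] at this
      exact this
    have hk1 : ∀ x, (b + 2 * a * x ^ 2) ^ 2 * (1 - k) = k := by
      intro x
      have h1 := hval x
      have h2 : (b + 2 * a * x ^ 2) ^ 2 + 1 ^ 2 ≠ 0 := by positivity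
      rw [div_eq_iff h2] at h1
      linarith
    have e0 := hk1 0
    have e1 := hk1 1
    have e2 := hk1 2
    have hk2 : 1 - k ≠ 0 := by
      intro h0
      rw [h0, mul_zero] at e0
      rw [← e0] at h0
      norm_num at h0
    have f1 : (b + 2 * a * 1 ^ 2) ^ 2 = (b + 2 * a * 0 ^ 2) ^ 2 :=
      mul_right_cancel₀ hk2 (e1.trans e0.symm)
    have f2 : (b + 2 * a * 2 ^ 2) ^ 2 = (b + 2 * a * 0 ^ 2) ^ 2 :=
      mul_right_cancel₀ hk2 (e2.trans e0.symm)
    have g1 : a * (a + b) = 0 := by nlinarith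
    have g2 : a * (4 * a + b) = 0 := by nlinarith
    rcases mul_eq_zero.1 g1 with g | g
    · exact ha g
    · rcases mul_eq_zero.1 g2 with g' | g'
      · exact ha g'
      · exact ha (by linarith)
  · intro x y
    have hPx := Pf_dx a b y₀ 1 0 x y
    have hQx := Pf_dx a b y₀ 0 1 x y
    have hPy := Pf_dy a b y₀ 1 0 x y
    have hQy := Pf_dy a b y₀ 0 1 x y
    rw [← hP] at hPx hPy
    rw [← hQ] at hQx hQy
    have hx := ((hPx.pow 2).div ((hPx.pow 2).add (hQx.pow 2)) (hne (x, y))).deriv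
    have hy := ((hPy.pow 2).div ((hPy.pow 2).add (hQy.pow 2)) (hne (x, y))).deriv
    have hx' : deriv (fun s => P (s, y) ^ 2 / (P (s, y) ^ 2 + Q (s, y) ^ 2)) x = _ := hx
    have hy' : deriv (fun s => P (x, s) ^ 2 / (P (x, s) ^ 2 + Q (x, s) ^ 2)) y = _ := hy
    change (y - E.eval x) * deriv (fun s => P (s, y) ^ 2 / (P (s, y) ^ 2 + Q (s, y) ^ 2)) x
      - x * deriv (fun s => P (x, s) ^ 2 / (P (x, s) ^ 2 + Q (x, s) ^ 2)) y = 0
    rw [hx', hy', hE]
    have hXP : (y - (a * x ^ 4 + b * x ^ 2 + c)) * (4 * a * x * F (co a 1 0) (y - y₀))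
        - x * (4 * a * (y - y₀) * F (co a 1 0) (y - y₀)
        + (b + 2 * a * x ^ 2) * F (D (co a 1 0)) (y - y₀)) = -x * (b + 2 * a * x ^ 2) * P (x, y) := by
      rw [hP, Pf]
      have : 4 * a * y₀ = 4 * a * c - b ^ 2 := by
        rw [hy₀]; field_simp
      linear_combination (x * F (co a 1 0) (y - y₀)) * this
    have hXQ : (y - (a * x ^ 4 + b * x ^ 2 + c)) * (4 * a * x * F (co a 0 1) (y - y₀))
        - x * (4 * a * (y - y₀) * F (co a 0 1) (y - y₀)
        + (b + 2 * a * x ^ 2) * F (D (co a 0 1)) (y - y₀)) = -x * (b + 2 * a * x ^ 2) * Q (x, y) := by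
      rw [hQ, Pf]
      have : 4 * a * y₀ = 4 * a * c - b ^ 2 := by
        rw [hy₀]; field_simp
      linear_combination (x * F (co a 0 1) (y - y₀)) * this
    have hne' := hne (x, y)
    have hnum : ∀ N M k D : ℝ, D ≠ 0 → k * N - x * M = 0 → k * (N / D) - x * (M / D) = 0 := by
      intro N M k D _ h
      have : k * (N / D) - x * (M / D) = (k * N - x * M) / D := by ring
      rw [this, h, zero_div]
    refine hnum _ _ _ _ (pow_ne_zero 2 hne') ?_
    simp only [Nat.cast_ofNat, Nat.add_one_sub_one, pow_one, Pi.pow_apply, Pi.add_apply]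
    linear_combination (2 * P (x, y) * Q (x, y) ^ 2) * hXP - (2 * P (x, y) ^ 2 * Q (x, y)) * hXQ

theorem result :
    (∀ E : ℝ[X], (∀ x, E.eval (-x) = E.eval x) → E.natDegree = 4 →
      ∃ H : ℝ × ℝ → ℝ, IsGlobalAnalyticFirstIntegral E H) ∧ ¬ Q1 := by
  have h4 : ∀ E : ℝ[X], (∀ x, E.eval (-x) = E.eval x) → E.natDegree = 4 →
      ∃ H : ℝ × ℝ → ℝ, IsGlobalAnalyticFirstIntegral E H := by
    intro E hE hdeg
    have hev : ∀ x, E.eval x = E.coeff 0 + E.coeff 1 * x + E.coeff 2 * x ^ 2 + E.coeff 3 * x ^ 3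
        + E.coeff 4 * x ^ 4 := by
      intro x
      rw [eval_eq_sum_range, hdeg]
      simp [Finset.sum_range_succ]
    have h1 := hE 1
    have h2 := hE 2
    rw [hev, hev] at h1 h2
    have e3 : E.coeff 3 = 0 := by linarith
    have e1 : E.coeff 1 = 0 := by linarith
    have ha : E.coeff 4 ≠ 0 := by
      have : E.leadingCoeff ≠ 0 := by
        rw [Polynomial.leadingCoeff_ne_zero]
        rintro rfl
        simp at hdeg
      rwa [Polynomial.leadingCoeff, hdeg] at this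
    refine exists_of_quartic (a := E.coeff 4) (b := E.coeff 2) (c := E.coeff 0) ha fun x => ?_
    rw [hev, e1, e3]
    ring
  refine ⟨h4, fun h => ?_⟩
  refine h (X ^ 4) (fun x => by simp only [eval_pow, eval_X]; ring) (by simp)
    (h4 (X ^ 4) (fun x => by simp only [eval_pow, eval_X]; ring) (by simp))

end Pool.Agent.Results.MP_b09cb0_an.QuarticIntegral
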